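import Pool.Agent.Lib_helper68.LEV.KRN
import Pool.Agent.Lib_helper68.LEV.EIA
import Pool.Agent.Lib_helper68.LEV.FRU
import Pool.Agent.Lib_helper41.TK.W.GC
import Pool.Agent.Lib_helper41.TK.W.GD
import Pool.Agent.Lib_helper41.TK.W.GE

/-! TK, block GF. -/

set_option autoImplicit false

namespace Pool.Agent.TK

open Pool.Agent.LEV Pool.Agent.LVB Pool.Agent.KSL
open Pool.Agent.LK (PQ)
open Pool.Agent.FG61 (mu phi cc ff AA Lam)
open Complex MeasureTheory Filter Topology UpperHalfPlane ModularGroup ProbabilityTheory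
open scoped MatrixGroups Modular ENNReal ModularForm ComplexConjugate ContDiff

/-- the bound for the linear functional on the even part -/
theorem ggeo_bound {T : ℝ} {ρ : ℝ → ℝ} (hρ : Ker T ρ) : ∃ C : ℝ, 0 < C ∧ ∀ (N : ℕ) [Fact N.Prime]
    (W : S2 N →ₗ[ℂ] S2 N), IsFricke W → ∀ g : S2 N, W g = -g → ∀ Q : ℕ, 1 ≤ Q →
    100 * T * Q ≤ Real.sqrt N → ∀ w : ℕ → ℕ → ℂ,
      ‖gl g Q w‖ ≤ (Real.sqrt ((gHS N Q w ρ + gBS N Q w ρ) / 2) +
        C * Real.sqrt (gE Q w)) * Real.sqrt (nr g) := by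
  obtain ⟨C, hC, hbd⟩ := gbd_bound hρ
  refine ⟨C, hC, fun N _ W hW g hg Q hQ1 hQ w => ?_⟩
  rw [gl_split hρ g Q w, add_mul]
  exact (norm_add_le _ _).trans (add_le_add (gmain_bound hW hg hρ hQ1 hQ w) (hbd N g Q hQ1 hQ w))

theorem gfam_bound {T : ℝ} {ρ : ℝ → ℝ} (hρ : Ker T ρ) : ∃ C : ℝ, 0 < C ∧ ∀ (N : ℕ) [Fact N.Prime]
    {ι : Type} [Fintype ι] (f : ι → S2 N), Function.Injective f → (∀ i, IsNew (f i)) →
    (∀ i, co (f i) N = 1) → ∀ Q : ℕ, 1 ≤ Q → 100 * T * Q ≤ Real.sqrt N → ∀ w : ℕ → ℕ → ℂ,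
      ∑ i, om (f i) * ‖4 * Real.pi * gl (f i) Q w‖ ^ 2 ≤
        4 * Real.pi * (Real.sqrt ((gHS N Q w ρ + gBS N Q w ρ) / 2) +
          C * Real.sqrt (gE Q w)) ^ 2 := by
  obtain ⟨C, hC, hgeo⟩ := ggeo_bound hρ
  refine ⟨C, hC, ?_⟩
  intro N _ ι _ f hinj hnew hco Q hQ1 hQ w
  obtain ⟨W, hW⟩ := fricke_exists (N := N)
  obtain ⟨l, hl⟩ := gl_linear (N := N) Q w
  set B : ℝ := Real.sqrt ((gHS N Q w ρ + gBS N Q w ρ) / 2) +
    C * Real.sqrt (gE Q w) with hB
  have hB0 : 0 ≤ B := by positivity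
  have hWf : ∀ i, W (f i) = -f i := by
    intro i
    rw [(new_fricke (hnew i) hW).1, hco i, neg_one_smul]
  have hspan : ∀ g ∈ Submodule.span ℂ (Set.range f), W g = -g := by
    intro g hg
    induction hg using Submodule.span_induction with
    | mem x hx =>
      obtain ⟨i, rfl⟩ := hx
      exact hWf i
    | zero => rw [map_zero, neg_zero]
    | add x y _ _ hx hy => rw [map_add, hx, hy, neg_add]
    | smul a x _ hx => rw [map_smul, hx, smul_neg]
  have hkey := kern_gen f (fun i => new_ne_zero (hnew i))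
    (fun i j hij => new_orth (hnew i) (hnew j) (fun h => hij (hinj h))) l (B := B ^ 2)
    (sq_nonneg B) (by
      intro g hg
      have h1 := hgeo N W hW g (hspan g hg) Q hQ1 hQ w
      rw [hl]
      rw [← hB] at h1
      calc ‖gl g Q w‖ ^ 2 ≤ (B * Real.sqrt (nr g)) ^ 2 :=
            pow_le_pow_left₀ (norm_nonneg _) h1 2
        _ = B ^ 2 * nr g := by
            rw [mul_pow, Real.sq_sqrt]
            exact FRU_nr_nonneg g)
  have hpi := Real.pi_pos
  have hterm : ∀ i, om (f i) * ‖4 * Real.pi * gl (f i) Q w‖ ^ 2 =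
      4 * Real.pi * (‖l (f i)‖ ^ 2 / nr (f i)) := by
    intro i
    have hn := nr_pos (new_ne_zero (hnew i))
    rw [hl, norm_mul, om, mul_pow]
    have e : ‖(4 * Real.pi : ℂ)‖ = 4 * Real.pi := by
      rw [norm_mul, Complex.norm_real, Real.norm_eq_abs, abs_of_pos hpi]
      norm_num
    rw [e]
    field_simp
  rw [Finset.sum_congr rfl fun i _ => hterm i, ← Finset.mul_sum]
  exact mul_le_mul_of_nonneg_left hkey (by positivity)

end Pool.Agent.TK
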